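import Pool.Agent.BSH.Stmts

/-!
# BSH row LIM (`((D0 + d) / (D0 + 1)) ^ n` tends to `1`)
-/

set_option autoImplicit false

open Filter Topology

namespace Pool.Agent.BSH.H10

theorem lim : LimStmt := by
  intro n d x y h
  have h1 : Tendsto (fun D : ℕ => (y : ℝ) * (1 + ((d : ℝ) - 1) * (1 / ((D : ℝ) + 1))) ^ n) atTop
      (𝓝 ((y : ℝ) * (1 + ((d : ℝ) - 1) * 0) ^ n)) :=
    (((tendsto_one_div_add_atTop_nhds_zero_nat (𝕜 := ℝ)).const_mul _).const_add _).pow n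
      |>.const_mul _
  have h2 : (y : ℝ) * (1 + ((d : ℝ) - 1) * 0) ^ n = y := by simp
  rw [h2] at h1
  have h3 : ∀ D : ℕ, (x : ℝ) ≤ (y : ℝ) * (1 + ((d : ℝ) - 1) * (1 / ((D : ℝ) + 1))) ^ n := by
    intro D
    have hD : (0 : ℝ) < (D : ℝ) + 1 := by positivity
    have h4 : ((D : ℝ) + 1) ^ n * x ≤ y * ((D : ℝ) + d) ^ n := by exact_mod_cast h D
    have h5 : (1 + ((d : ℝ) - 1) * (1 / ((D : ℝ) + 1))) = ((D : ℝ) + d) / ((D : ℝ) + 1) := by
      field_simp; ring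
    rw [h5, div_pow, ← mul_div_assoc, le_div_iff₀ (pow_pos hD n), mul_comm (x : ℝ)]
    exact h4
  exact_mod_cast ge_of_tendsto' h1 h3

end Pool.Agent.BSH.H10
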