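import Pool.Agent.BSH.Stmts
import Pool.Agent.Helper78_ACIT.Prime

/-!
# BSH row TST (the test)
-/

set_option autoImplicit false

namespace Pool.Agent.BSH.H10

open MvPolynomial Pool.Agent.Helper78_ACIT

theorem ext_map {A A' : Type} [CommRing A] [CommRing A'] (φ : A →+* A') {N : ℕ} (ξ : Fin N → A)
    (i : ℕ) : φ (ext ξ i) = ext (fun j => φ (ξ j)) i := by
  unfold ext
  split_ifs
  · rfl
  · exact map_zero φ

theorem testValue_eq (hNAT : NatStmt) (l σ ν p N : ℕ) (ξ : Fin (3 ^ l * ν) → Fin N)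
    (G : List Gate) :
    testValue l σ ν p N ξ G =
      ((eval (gen l σ ν (ext fun j => (((ξ j : ℕ) : ℤ)))) (poly G) : ℤ) : ZMod p) := by
  unfold testValue
  have h1 := out_map (Int.castRingHom (ZMod p)) (gen l σ ν (ext fun j => (((ξ j : ℕ) : ℤ)))) G
  have h2 : (fun i => Int.castRingHom (ZMod p) (gen l σ ν (ext fun j => (((ξ j : ℕ) : ℤ))) i)) =
      gen l σ ν (ext fun j => ((ξ j : ℕ) : ZMod p)) := by
    funext i
    rw [hNAT.1 ℤ (ZMod p) (Int.castRingHom (ZMod p))]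
    congr 1
    funext m
    rw [ext_map]
    simp
  rw [h2] at h1
  rw [← h1, out_eq_eval]
  rfl

theorem tst (hIHT : IhtStmt) (hSIZ : SizStmt) (hNAT : NatStmt) : TstStmt := by
  intro E _ _ l σ ν P hP D b N G hDN hG hpoly
  constructor
  · rintro ⟨-, h0⟩ p _ _ ξ
    rw [testValue_eq hNAT, h0, map_zero, Int.cast_zero]
  · intro htest
    refine ⟨hG, ?_⟩
    rcases hpoly with h0 | ⟨hD, hb, F, hF, hF0, hdvd⟩
    · exact h0
    exfalso
    obtain ⟨ξ, hξ, hne⟩ := hIHT E l σ ν D (poly G) hD F (hP F hF hF0) hdvd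
    obtain ⟨V, hV⟩ : ∃ V, V = eval (gen l σ ν (ext fun j => (ξ j : ℤ))) (poly G) := ⟨_, rfl⟩
    rw [← hV] at hne
    have hξN : ∀ j, ξ j ≤ N := fun j => (hξ j).trans hDN
    have hVle : V.natAbs ≤ 2 ^ (b + N * (l * (4 ^ l * ν) ^ 2 + N)) := by
      rw [hV]
      refine (UO.natAbs_eval_le (poly G) _ (2 ^ (2 ^ qq l σ * (l * (4 ^ l * ν) ^ 2 + N))) D
        (Nat.one_le_pow _ _ (by norm_num)) (hSIZ l σ ν N ξ hξN) hD).trans ?_
      rw [← pow_mul, pow_add]
      refine Nat.mul_le_mul hb (Nat.pow_le_pow_right (by norm_num) ?_)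
      calc 2 ^ qq l σ * (l * (4 ^ l * ν) ^ 2 + N) * D
          = D * 2 ^ qq l σ * (l * (4 ^ l * ν) ^ 2 + N) := by ring
        _ ≤ N * (l * (4 ^ l * ν) ^ 2 + N) := Nat.mul_le_mul_right _ hDN
    obtain ⟨p, hp, hple, hpnd⟩ := exists_prime_not_dvd V.natAbs _ (Int.natAbs_ne_zero.mpr hne)
      hVle
    apply hpnd
    have h1 := htest p hp hple (fun j => ⟨ξ j, Nat.lt_succ_of_le (hξN j)⟩)
    rw [testValue_eq hNAT] at h1
    have h2 : ((V : ℤ) : ZMod p) = 0 := by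
      rw [hV]
      exact h1
    rw [ZMod.intCast_zmod_eq_zero_iff_dvd, Int.natCast_dvd] at h2
    exact h2

end Pool.Agent.BSH.H10
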